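import Mathlib
import Pool.Agent.H10.CornB

set_option autoImplicit false

namespace Pool.Agent.Results.MP_59e64e_co.VertexFacet
open Pool.Agent.H10.Corn

theorem result (n : ℕ) (C : Set (H n)) (hC : Corner C) (X : H n) (hX : Vertex C X) (X0 : X ≠ 0) :
    Facet (anti C) {Z ∈ anti C | ip X Z = 1} :=
  main hC hX X0

end Pool.Agent.Results.MP_59e64e_co.VertexFacet
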